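import Pool.Agent.Lib.MP_1c8e06_ag.AJ.Gb2

set_option autoImplicit false

open Polynomial Equiv
open scoped Classical

namespace Pool.Agent.MP_1c8e06_ag.AM

open Pool.Agent.MP_1c8e06_ag.AJ

noncomputable section

/-!
# Task R1: the largest subgroup reached from `i`

Proof.  `Subgroup G` is finite; the set of all `H` with `RE p k i H` is nonempty (`re_range`; `P` has prime order so it is a
`p`-group: `IsPGroup.of_card`), and closed under `⊔` (`re_join`); take a maximal element (`Set.Finite.exists_maximal` or strong
induction on the cardinality): it is the largest one.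
-/

theorem exists_max {p : ℕ} [hp : Fact p.Prime] {k : Type} [Field k] [IsAlgClosed k] [CharP k p]
    {P G : Type} [Group P] [Fintype P] [Group G] [Fintype G] (i : P →* G)
    (hi : Function.Injective i) (hcard : Nat.card P = p) :
    ∃ M : Subgroup G, RE p k i M ∧ ∀ H, RE p k i H → H ≤ M := by
  have hP : IsPGroup p P := IsPGroup.of_card (n := 1) (by rw [hcard, pow_one])
  have hfin : {H : Subgroup G | RE p k i H}.Finite := Set.toFinite _
  obtain ⟨M, hM⟩ := hfin.exists_maximal ⟨i.range, re_range hP i hi⟩
  refine ⟨M, hM.prop, fun H hH => ?_⟩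
  have h := hM.le_of_ge (re_join i hi hcard M H hM.prop hH) le_sup_left
  exact le_sup_right.trans h

end

end Pool.Agent.MP_1c8e06_ag.AM
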